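import Pool.Agent.Helper69.ST.GoalsR

/-!
PROJECT ST, packet FA: first properties of the filled domain.
-/

open MeasureTheory Set Complex Metric Filter
open scoped ContDiff Topology ENNReal

namespace Pool.Agent.Helper36.ST.FA

open Pool.Agent.Helper45.Stek Pool.Agent.Helper69.ST

theorem t (h : S_OC) : S_FA := by
  intro Ω hΩ hb
  obtain ⟨hO, hOc, hOd, ⟨R, hR⟩, hOe⟩ := h Ω hb
  have hdis : Disjoint Ω (outerC Ω) := by
    rw [Set.disjoint_left]
    intro z hz hz'
    exact hOd z hz' (subset_closure hz)
  have hdis2 : Disjoint Ω (closure (outerC Ω)) := hdis.closure_right hΩ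
  have hnot : ∀ z ∈ fill Ω, z ∉ outerC Ω := fun z hz hz' => hz (subset_closure hz')
  refine ⟨isClosed_closure.isOpen_compl, ?_, ?_, ?_, hnot, ?_, ?_⟩
  · refine (Metric.isBounded_closedBall (x := (0 : ℂ)) (r := R)).subset fun z hz => ?_
    rw [mem_closedBall_zero_iff]
    by_contra hcon
    push Not at hcon
    exact hnot z hz (hR z hcon)
  · intro z hz hz'
    exact Set.disjoint_left.1 hdis2 hz hz'
  · unfold fill
    rw [compl_compl]
    exact hOc.isPreconnected.closure
  · unfold fill
    rw [frontier_compl]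
    exact frontier_closure_subset
  · intro p hp
    rw [frontier, hO.interior_eq] at hp
    rw [frontier, hΩ.interior_eq]
    refine ⟨?_, fun hpΩ => Set.disjoint_left.1 hdis2 hpΩ hp.1⟩
    by_contra hcon
    obtain ⟨ε, hε, hball⟩ := Metric.isOpen_iff.1 (isClosed_closure (s := Ω)).isOpen_compl p hcon
    have hne : (ball p ε ∩ outerC Ω).Nonempty :=
      mem_closure_iff_nhds.1 hp.1 _ (Metric.ball_mem_nhds p hε)
    have hsub := hOe (ball p ε) (convex_ball p ε).isPreconnected hne hball
    exact hp.2 (hsub (Metric.mem_ball_self hε))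

end Pool.Agent.Helper36.ST.FA
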