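import Pool.Agent.Helper69.ST.Goals

/-!
PROJECT ST, packet MB: the mass of a block.
-/

open MeasureTheory Set Complex Metric Filter
open scoped ContDiff Topology ENNReal

namespace Pool.Agent.Helper36.ST.MB

open Pool.Agent.Helper45.Stek Pool.Agent.Helper69.ST

theorem hf_circle (l : ℤ) (θ : ℝ) : hf l (exp (θ * I)) = exp (l * θ * I) := by
  unfold hf
  split_ifs with h
  · rw [← Complex.exp_nat_mul]
    congr 1
    have h1 : ((l.toNat : ℕ) : ℂ) = (l : ℂ) := by
      have h2 : ((l.toNat : ℕ) : ℤ) = l := Int.toNat_of_nonneg h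
      exact_mod_cast congrArg (fun x : ℤ => (x : ℂ)) h2
    rw [h1]
    ring
  · rw [← Complex.exp_conj, ← Complex.exp_nat_mul]
    congr 1
    have h1 : (((-l).toNat : ℕ) : ℂ) = ((-l : ℤ) : ℂ) := by
      have h2 : (((-l).toNat : ℕ) : ℤ) = -l := Int.toNat_of_nonneg (by omega)
      exact_mod_cast congrArg (fun x : ℤ => (x : ℂ)) h2
    rw [h1]
    simp only [map_mul, Complex.conj_ofReal, Complex.conj_I, Int.cast_neg]
    ring

theorem den_ne (c w : ℂ) (hc : ‖c‖ < 1) (hw : ‖w‖ = 1) : 1 - starRingEnd ℂ c * w ≠ 0 := by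
  intro h
  have h1 : (1 : ℂ) = starRingEnd ℂ c * w := sub_eq_zero.1 h
  have h2 : ‖(1 : ℂ)‖ = ‖c‖ := by
    rw [h1, norm_mul, hw, mul_one, RCLike.norm_conj]
  rw [norm_one] at h2
  linarith

theorem norm_mob (c w : ℂ) (hc : ‖c‖ < 1) (hw : ‖w‖ = 1) : ‖mob c w‖ = 1 := by
  unfold mob
  have h0 := den_ne c w hc hw
  rw [norm_div, div_eq_one_iff_eq (norm_ne_zero_iff.2 h0)]
  have h1 : w * starRingEnd ℂ w = 1 := by
    rw [Complex.mul_conj, Complex.normSq_eq_norm_sq, hw]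
    simp
  have h2 : w - c = w * starRingEnd ℂ (1 - starRingEnd ℂ c * w) := by
    rw [map_sub, map_one, map_mul, Complex.conj_conj, mul_sub, mul_one]
    have h3 : w * (c * starRingEnd ℂ w) = c * (w * starRingEnd ℂ w) := by ring
    rw [h3, h1, mul_one]
  rw [h2, norm_mul, hw, one_mul, RCLike.norm_conj]

theorem norm_ei (t : ℝ) : ‖exp ((t : ℂ) * I)‖ = 1 := Complex.norm_exp_ofReal_mul_I t

/-- integrals of periodic functions -/
theorem int_mul {E : Type*} [NormedAddCommGroup E] [NormedSpace ℝ E] (p : ℕ) (hp : 1 ≤ p)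
    (G : ℝ → E) (hper : ∀ t, G (t + 2 * Real.pi) = G t)
    (hint : ∀ a b : ℝ, IntervalIntegrable G volume a b) :
    ∫ θ in (-Real.pi)..Real.pi, G (p * θ) = ∫ t in (-Real.pi)..Real.pi, G t := by
  have hP : Function.Periodic G (2 * Real.pi) := hper
  have hp0 : (p : ℝ) ≠ 0 := by
    have : (1 : ℝ) ≤ p := by exact_mod_cast hp
    positivity
  rw [intervalIntegral.integral_comp_mul_left G hp0]
  have h1 := hP.intervalIntegral_add_zsmul_eq (p : ℤ) ((p : ℝ) * -Real.pi) hint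
  have h2 : (p : ℝ) * -Real.pi + (p : ℤ) • (2 * Real.pi) = (p : ℝ) * Real.pi := by
    rw [zsmul_eq_mul]
    push_cast
    ring
  rw [h2] at h1
  rw [h1]
  have h3 := hP.intervalIntegral_add_eq ((p : ℝ) * -Real.pi) (-Real.pi)
  rw [h3]
  have h4 : -Real.pi + 2 * Real.pi = Real.pi := by ring
  rw [h4, natCast_zsmul, ← Nat.cast_smul_eq_nsmul ℝ, smul_smul, inv_mul_cancel₀ hp0, one_smul]

theorem t : S_MB := by
  intro p H c l v hp hH hper hI hc hzero hv hvc α γ
  have hall : ∀ a b : ℝ, IntervalIntegrable (fun t => ‖H t‖ ^ 2) volume a b := by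
    intro a b
    have hP : Function.Periodic (fun t => ‖H t‖ ^ 2) (2 * Real.pi) := by
      intro t
      simp only [hper]
    refine hP.intervalIntegrable (by positivity) (t := -Real.pi) ?_ a b
    have h4 : -Real.pi + 2 * Real.pi = Real.pi := by ring
    rw [h4]
    exact hI
  have hmc : Continuous (fun t : ℝ => mob c (exp (t * I))) := by
    unfold mob
    refine Continuous.div (by fun_prop) (by fun_prop) ?_
    intro t
    exact den_ne c _ hc (norm_ei t)
  have hG : ∀ a b : ℝ, IntervalIntegrable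
      (fun t : ℝ => mob c (exp (t * I)) * ((‖H t‖ ^ 2 : ℝ) : ℂ)) volume a b := by
    intro a b
    have h1 : IntervalIntegrable (fun t : ℝ => ((‖H t‖ ^ 2 : ℝ) : ℂ)) volume a b :=
      ⟨(hall a b).1.ofReal, (hall a b).2.ofReal⟩
    exact h1.continuousOn_mul hmc.continuousOn
  have hGper : ∀ t : ℝ, mob c (exp (((t + 2 * Real.pi : ℝ) : ℂ) * I)) *
      ((‖H (t + 2 * Real.pi)‖ ^ 2 : ℝ) : ℂ) = mob c (exp (t * I)) * ((‖H t‖ ^ 2 : ℝ) : ℂ) := by
    intro t
    rw [hper]
    congr 2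
    rw [Complex.exp_eq_exp_iff_exists_int]
    exact ⟨1, by push_cast; ring⟩
  have hG0 := int_mul p hp _ hGper hG
  rw [hzero] at hG0
  have hF0 := int_mul p hp (fun t => ‖H t‖ ^ 2) (fun t => by simp only [hper]) hall
  -- integrability in the variable of the circle
  have hscale : ∀ {E : Type} [NormedAddCommGroup E] (G : ℝ → E),
      (∀ a b : ℝ, IntervalIntegrable G volume a b) →
      IntervalIntegrable (fun θ : ℝ => G (p * θ)) volume (-Real.pi) Real.pi := by
    intro E _ G hGi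
    have hp0 : (p : ℝ) ≠ 0 := by
      have : (1 : ℝ) ≤ p := by exact_mod_cast hp
      positivity
    have h1 := (hGi (p * -Real.pi) (p * Real.pi)).comp_mul_left (c := (p : ℝ))
    rwa [mul_div_cancel_left₀ _ hp0, mul_div_cancel_left₀ _ hp0] at h1
  have key : ∃ A : ℂ, ∀ θ : ℝ, ‖α * hf l (exp (θ * I)) + γ * v (exp (θ * I))‖ ^ 2 * ‖H (p * θ)‖ ^ 2 =
      (‖α‖ ^ 2 + ‖γ‖ ^ 2) * ‖H (p * θ)‖ ^ 2 +
        2 * (A * (mob c (exp (((p * θ : ℝ) : ℂ) * I)) * ((‖H (p * θ)‖ ^ 2 : ℝ) : ℂ))).re := by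
    have hnorm : ∀ (θ : ℝ) (m : ℂ), ‖m‖ = 1 →
        ‖α * exp (l * θ * I) + γ * (exp (l * θ * I) * m)‖ ^ 2 =
          ‖α‖ ^ 2 + ‖γ‖ ^ 2 + 2 * (α * starRingEnd ℂ γ * starRingEnd ℂ m).re := by
      intro θ m hm
      have h1 : α * exp (l * θ * I) + γ * (exp (l * θ * I) * m) = exp (l * θ * I) * (α + γ * m) := by
        ring
      have h2 : ‖exp ((l : ℂ) * θ * I)‖ = 1 := by
        have h3 : (l : ℂ) * θ * I = (((l : ℝ) * θ : ℝ) : ℂ) * I := by push_cast; ring
        rw [h3]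
        exact norm_ei _
      rw [h1, norm_mul, h2, one_mul]
      have h4 := Complex.sq_norm (α + γ * m)
      rw [h4, Complex.normSq_add, ← Complex.sq_norm, ← Complex.sq_norm, norm_mul, hm, mul_one,
        map_mul, mul_assoc]
    by_cases hl : 0 ≤ l
    · refine ⟨α * starRingEnd ℂ γ, fun θ => ?_⟩
      rw [hf_circle, hvc θ]
      unfold vcirc
      rw [if_pos hl, hnorm θ _ (by rw [RCLike.norm_conj]; exact norm_mob c _ hc (by
        have : (p : ℂ) * θ * I = (((p : ℝ) * θ : ℝ) : ℂ) * I := by push_cast; ring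
        rw [this]
        exact norm_ei _)), Complex.conj_conj]
      have h5 : (((p : ℝ) * θ : ℝ) : ℂ) * I = (p : ℂ) * θ * I := by push_cast; ring
      rw [h5, add_mul, ← mul_assoc, Complex.re_mul_ofReal]
      ring
    · refine ⟨starRingEnd ℂ α * γ, fun θ => ?_⟩
      rw [hf_circle, hvc θ]
      unfold vcirc
      rw [if_neg hl, hnorm θ _ (norm_mob c _ hc (by
        have : (p : ℂ) * θ * I = (((p : ℝ) * θ : ℝ) : ℂ) * I := by push_cast; ring
        rw [this]
        exact norm_ei _))]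
      have h5 : (((p : ℝ) * θ : ℝ) : ℂ) * I = (p : ℂ) * θ * I := by push_cast; ring
      have h6 : ∀ m : ℂ, (α * starRingEnd ℂ γ * starRingEnd ℂ m).re =
          (starRingEnd ℂ α * γ * m).re := by
        intro m
        rw [← Complex.conj_re (starRingEnd ℂ α * γ * m)]
        simp only [map_mul, Complex.conj_conj]
      rw [h5, add_mul, h6, ← mul_assoc, Complex.re_mul_ofReal]
      ring
  obtain ⟨A, hA⟩ := key
  have hGs := hscale _ hG
  have hFs := hscale _ hall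
  unfold mass
  have hcongr : ∫ θ in (-Real.pi)..Real.pi,
      ‖(fun z => α * hf l z + γ * v z) (exp (θ * I))‖ ^ 2 * ‖H (p * θ)‖ ^ 2 =
      ∫ θ in (-Real.pi)..Real.pi, ((‖α‖ ^ 2 + ‖γ‖ ^ 2) * ‖H (p * θ)‖ ^ 2 +
        2 * (A * (mob c (exp (((p * θ : ℝ) : ℂ) * I)) * ((‖H (p * θ)‖ ^ 2 : ℝ) : ℂ))).re) :=
    intervalIntegral.integral_congr fun θ _ => hA θ
  rw [hcongr]
  have hre : IntervalIntegrable (fun θ : ℝ =>
      (A * (mob c (exp (((p * θ : ℝ) : ℂ) * I)) * ((‖H (p * θ)‖ ^ 2 : ℝ) : ℂ))).re)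
      volume (-Real.pi) Real.pi := by
    have h1 := hGs.const_mul A
    exact ⟨h1.1.re, h1.2.re⟩
  rw [intervalIntegral.integral_add (hFs.const_mul _) (hre.const_mul 2),
    intervalIntegral.integral_const_mul, intervalIntegral.integral_const_mul, hF0]
  have hzero2 : ∫ θ in (-Real.pi)..Real.pi,
      (A * (mob c (exp (((p * θ : ℝ) : ℂ) * I)) * ((‖H (p * θ)‖ ^ 2 : ℝ) : ℂ))).re = 0 := by
    have h2 := Complex.reCLM.intervalIntegral_comp_comm (hGs.const_mul A)
    have h3 : ∫ θ in (-Real.pi)..Real.pi,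
        (A * (mob c (exp (((p * θ : ℝ) : ℂ) * I)) * ((‖H (p * θ)‖ ^ 2 : ℝ) : ℂ))) = 0 := by
      rw [intervalIntegral.integral_const_mul, hG0, mul_zero]
    rw [h3] at h2
    simpa using h2
  rw [hzero2, mul_zero, add_zero]

end Pool.Agent.Helper36.ST.MB
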