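import Pool.Agent.Helper69.ST.GoalsR

/-!
PROJECT ST, packet SQ: holomorphic square roots.
-/

open MeasureTheory Set Complex Metric Filter
open scoped ContDiff Topology ENNReal

namespace Pool.Agent.Helper36.ST.SQ

open Pool.Agent.Helper45.Stek Pool.Agent.Helper69.ST

theorem t (h : S_PR) : S_SQ := by
  intro U hU hb hc hp g hg hg0
  have hdg : DifferentiableOn ℂ (fun z => deriv g z / g z) U := (hg.deriv hU).div hg hg0
  obtain ⟨G, hG⟩ := h U hU hb hc hp _ hdg
  obtain ⟨z₀, hz₀⟩ := hc.nonempty
  have hφ : ∀ z ∈ U, HasDerivAt (fun z => g z * exp (-G z)) 0 z := by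
    intro z hz
    have h1 : HasDerivAt g (deriv g z) z := (hg.differentiableAt (hU.mem_nhds hz)).hasDerivAt
    have h2 : HasDerivAt (fun z => exp (-G z)) (exp (-G z) * -(deriv g z / g z)) z :=
      (hG z hz).neg.cexp
    have h3 := h1.mul h2
    have h4 := hg0 z hz
    have h5 : deriv g z * exp (-G z) + g z * (exp (-G z) * -(deriv g z / g z)) = 0 := by
      have h6 : g z * (exp (-G z) * -(deriv g z / g z)) =
          -(exp (-G z) * (g z * (deriv g z / g z))) := by ring
      rw [h6, mul_div_cancel₀ _ h4]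
      ring
    rw [h5] at h3
    exact h3
  have hconst : ∀ z ∈ U, g z * exp (-G z) = g z₀ * exp (-G z₀) := by
    intro z hz
    refine hU.is_const_of_deriv_eq_zero hc.isPreconnected (f := fun z => g z * exp (-G z))
      (fun y hy => (hφ y hy).differentiableAt.differentiableWithinAt)
      (fun y hy => (hφ y hy).deriv) hz hz₀
  set c : ℂ := g z₀ * exp (-G z₀) with hcdef
  have hc0 : c ≠ 0 := mul_ne_zero (hg0 z₀ hz₀) (exp_ne_zero _)
  refine ⟨fun z => exp ((G z + log c) / 2), ?_, ?_⟩
  · intro z hz
    exact (((hG z hz).differentiableAt.add_const _).div_const _).cexp.differentiableWithinAt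
  · intro z hz
    show exp ((G z + log c) / 2) ^ 2 = g z
    rw [← Complex.exp_nat_mul]
    have h1 : ((2 : ℕ) : ℂ) * ((G z + log c) / 2) = G z + log c := by
      push_cast
      ring
    rw [h1, exp_add, exp_log hc0, ← hconst z hz]
    have h2 : exp (G z) * (g z * exp (-G z)) = g z * (exp (G z) * exp (-G z)) := by ring
    rw [h2, ← exp_add, add_neg_cancel, exp_zero, mul_one]

end Pool.Agent.Helper36.ST.SQ
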